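import Pool.Agent.W251.GX.Defs
import Pool.Agent.W822.GA.Momp

/-! Project GX (helper251): MOM0 and MOMP (port of `Pool.Agent.W762.GS.Momp` and
`Pool.Agent.W108.FP.Mompf`). -/

set_option autoImplicit false

namespace Pool.Agent.W565.GX

open Finset Filter
open Pool.Agent.H376R2.MR (FK Fj)
open Pool.Agent.W78.GA (Qd nm prim bg dt ip lat NN cellM mE ps DPG Ele pball ball mem_pball ps_mul
  S_LS S_LAT)
open Pool.Agent.W822.GA (TT mem_TT gg FF SZ FF_nonneg ps_prod nm_prod prim_prod card_fiber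
  cellM_exp mem_cellM mE_nonneg mE_le bg_nonneg bg_le bg_ne card_ball_le)
open Pool.Agent.W251.GX

variable {a : ℕ → ℂ} {t c : ℤ}

section
variable {Ap Bp M : ℕ → Prop} {E : ℕ} {ρ : ℕ → ℤ} {ϖ : ℕ → Qd t c}

open scoped Classical in
/-- the coefficient -/
noncomputable def FG (a : ℕ → ℂ) (M : ℕ → Prop) (ϖ : ℕ → Qd t c) (H r ℓ : ℕ) (z : Qd t c) : ℂ :=
  ∑ τ ∈ (TT M H r ℓ).filter (fun τ => gg ϖ τ = z), ∏ i, (a (τ i) / (τ i : ℂ))

lemma norm_FG_le (ha : ∀ m, ‖a m‖ ≤ 1) (H r ℓ : ℕ) (z : Qd t c) :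
    ‖FG a M ϖ H r ℓ z‖ ≤ FF M ϖ H r ℓ z := by
  classical
  unfold FG FF
  refine (norm_sum_le _ _).trans ?_
  refine (Finset.sum_le_sum (g := fun τ : Fin ℓ → ℕ => ∏ i, 1 / (τ i : ℝ)) fun τ _ => ?_).trans
    (le_of_eq (Finset.sum_congr (by congr) fun τ _ => rfl))
  rw [norm_prod]
  refine Finset.prod_le_prod (fun i _ => norm_nonneg _) fun i _ => ?_
  rw [norm_div, Complex.norm_natCast]
  exact div_le_div_of_nonneg_right (ha _) (Nat.cast_nonneg _)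

lemma PE_pow (hD : t ^ 2 < 4 * c) (H r ℓ : ℕ) (k : ℤ) :
    (-∑ m ∈ cellM M H r, a m * ps k (ϖ m) / (m : ℂ)) ^ ℓ =
      DPG (SZ M ϖ H r ℓ) (fun z => (-1) ^ ℓ * FG a M ϖ H r ℓ z) k := by
  classical
  rw [neg_pow, Finset.sum_pow']
  have h1 : ∑ p ∈ Fintype.piFinset fun _ : Fin ℓ => cellM M H r,
      ∏ i, a (p i) * ps k (ϖ (p i)) / ((p i : ℕ) : ℂ) =
      ∑ τ ∈ TT M H r ℓ, ps k (gg ϖ τ) * ∏ i, (a (τ i) / (τ i : ℂ)) := by
    unfold TT
    refine Finset.sum_congr rfl fun τ _ => ?_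
    unfold gg
    rw [ps_prod hD]
    rw [← Finset.prod_mul_distrib]
    refine Finset.prod_congr rfl fun i _ => ?_
    ring
  rw [h1]
  unfold DPG SZ
  rw [← Finset.sum_fiberwise_of_maps_to (g := gg ϖ) (t := (TT M H r ℓ).image (gg ϖ))
    (fun p hp => Finset.mem_image_of_mem _ hp), Finset.mul_sum]
  refine Finset.sum_congr rfl fun z _ => ?_
  unfold FG
  rw [mul_assoc, Finset.sum_mul]
  congr 1
  refine Finset.sum_congr ?_ fun τ hτ => ?_
  · congr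
  · rw [(Finset.mem_filter.1 hτ).2]
    ring

end

theorem momp {t c : ℤ} (hD : t ^ 2 < 4 * c) (hLS : S_LS t c) : S_MOMP t c := by
  classical
  intro Ap Bp M E ρ ϖ hE F hF
  obtain ⟨C, hC, hls⟩ := hLS
  refine ⟨2 * C + 12, by linarith, ?_⟩
  intro H r ℓ K hH hK hKe
  have hHpos : (0 : ℝ) < H := by exact_mod_cast hH
  set A : ℝ := Real.exp ((r : ℝ) * ℓ / H) with hA
  set B : ℝ := Real.exp (((r : ℝ) + 1) * ℓ / H) with hB
  have hA1 : (1 : ℝ) ≤ A := Real.one_le_exp (by positivity)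
  have hAB : A ≤ B := by
    apply Real.exp_le_exp.2
    gcongr
    linarith
  have hA0 : 0 < A := by linarith
  have hB0 : 0 < B := by linarith
  have hAe : A = Real.exp ((r : ℝ) / H) ^ ℓ := by
    rw [hA, ← Real.exp_nat_mul]
    congr 1
    ring
  have hBe : B = Real.exp (((r : ℝ) + 1) / H) ^ ℓ := by
    rw [hB, ← Real.exp_nat_mul]
    congr 1
    ring
  -- tuples
  have hTnm : ∀ τ ∈ TT M H r ℓ, nm (gg ϖ τ) = ∏ i, τ i := by
    intro τ hτ
    rw [mem_TT] at hτ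
    unfold gg
    rw [nm_prod]
    exact Finset.prod_congr rfl fun i _ => (hE.elt _ (mem_cellM (hτ i)).1).1
  have hTlow : ∀ τ ∈ TT M H r ℓ, ∏ i, 1 / (τ i : ℝ) ≤ 1 / A := by
    intro τ hτ
    rw [mem_TT] at hτ
    have hpc : ∏ _i : Fin ℓ, (Real.exp ((r : ℝ) / H))⁻¹ = (Real.exp ((r : ℝ) / H))⁻¹ ^ ℓ := by
      rw [Finset.prod_const, Finset.card_univ, Fintype.card_fin]
    rw [hAe, one_div, ← inv_pow, ← hpc]
    refine Finset.prod_le_prod (fun i _ => by positivity) fun i _ => ?_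
    rw [← one_div]
    exact one_div_le_one_div_of_le (Real.exp_pos _) (cellM_exp hE (hτ i)).2.1
  have hs : ∀ z ∈ SZ M ϖ H r ℓ, prim z ∧ (nm z : ℝ) ≤ B := by
    intro z hz
    unfold SZ at hz
    rw [Finset.mem_image] at hz
    obtain ⟨τ, hτ, rfl⟩ := hz
    refine ⟨prim_prod hD hE _ τ fun i _ => (mem_cellM (mem_TT.1 hτ i)).1, ?_⟩
    rw [hTnm τ hτ, hBe]
    push_cast
    have hpc : ∏ _i : Fin ℓ, Real.exp (((r : ℝ) + 1) / H) = Real.exp (((r : ℝ) + 1) / H) ^ ℓ := by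
      rw [Finset.prod_const, Finset.card_univ, Fintype.card_fin]
    rw [← hpc]
    exact Finset.prod_le_prod (fun i _ => by positivity)
      fun i _ => (cellM_exp hE (mem_TT.1 hτ i)).2.2
  have hm := hls B K (SZ M ϖ H r ℓ) (fun z => (-1) ^ ℓ * FG (fun m => F (ϖ m)) M ϖ H r ℓ z) (hA1.trans hAB)
    hK hs
  have hFle : ∀ z, FF M ϖ H r ℓ z ≤ (ℓ.factorial : ℝ) ^ 2 * (1 / A) := by
    intro z
    unfold FF
    calc ∑ τ ∈ (TT M H r ℓ).filter (fun τ => gg ϖ τ = z), ∏ i, 1 / (τ i : ℝ)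
        ≤ ∑ τ ∈ (TT M H r ℓ).filter (fun τ => gg ϖ τ = z), 1 / A :=
          Finset.sum_le_sum fun τ hτ => hTlow τ (Finset.mem_filter.1 hτ).1
      _ = ((TT M H r ℓ).filter (fun τ => gg ϖ τ = z)).card * (1 / A) := by
          rw [Finset.sum_const, nsmul_eq_mul]
      _ ≤ (ℓ.factorial : ℝ) ^ 2 * (1 / A) := by
          have h1 : ((TT M H r ℓ).filter (fun τ => gg ϖ τ = z)).card ≤ ℓ.factorial ^ 2 := by
            refine le_trans (Finset.card_le_card ?_) (card_fiber hE H r ℓ (nm z))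
            intro τ hτ
            rw [Finset.mem_filter] at hτ ⊢
            refine ⟨hτ.1, ?_⟩
            rw [← hTnm τ hτ.1, hτ.2]
          have h2 : (((TT M H r ℓ).filter (fun τ => gg ϖ τ = z)).card : ℝ) ≤
              (ℓ.factorial : ℝ) ^ 2 := by exact_mod_cast h1
          gcongr
  have hFsum : ∑ z ∈ SZ M ϖ H r ℓ, FF M ϖ H r ℓ z ≤ 4 ^ ℓ := by
    have h1 : ∑ z ∈ SZ M ϖ H r ℓ, FF M ϖ H r ℓ z = mE M H r ^ ℓ := by
      unfold mE
      rw [Finset.sum_pow']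
      unfold FF SZ
      rw [Finset.sum_fiberwise_of_maps_to (fun p hp => Finset.mem_image_of_mem _ hp)]
      rfl
    rw [h1]
    exact pow_le_pow_left₀ (mE_nonneg _ _ _) (mE_le hE hH r) _
  have hsum : ∑ z ∈ SZ M ϖ H r ℓ, ‖(-1) ^ ℓ * FG (fun m => F (ϖ m)) M ϖ H r ℓ z‖ ^ 2 ≤
      (ℓ.factorial : ℝ) ^ 2 * (1 / A) * 4 ^ ℓ := by
    calc ∑ z ∈ SZ M ϖ H r ℓ, ‖(-1) ^ ℓ * FG (fun m => F (ϖ m)) M ϖ H r ℓ z‖ ^ 2
        ≤ ∑ z ∈ SZ M ϖ H r ℓ, (ℓ.factorial : ℝ) ^ 2 * (1 / A) * FF M ϖ H r ℓ z := by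
          refine Finset.sum_le_sum fun z _ => ?_
          rw [norm_mul, norm_pow, norm_neg, norm_one, one_pow, one_mul]
          refine (pow_le_pow_left₀ (norm_nonneg _) (norm_FG_le (fun m => hF (ϖ m)) H r ℓ z) 2).trans ?_
          rw [pow_two]
          exact mul_le_mul_of_nonneg_right (hFle z) (FF_nonneg _ _ _ _)
      _ = (ℓ.factorial : ℝ) ^ 2 * (1 / A) * ∑ z ∈ SZ M ϖ H r ℓ, FF M ϖ H r ℓ z := by
          rw [Finset.mul_sum]
      _ ≤ (ℓ.factorial : ℝ) ^ 2 * (1 / A) * 4 ^ ℓ := by gcongr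
  have hBA : B / A ≤ 3 ^ ℓ := by
    rw [hA, hB, ← Real.exp_sub]
    have h1 : ((r : ℝ) + 1) * ℓ / H - (r : ℝ) * ℓ / H = ℓ / H := by ring
    rw [h1]
    have h2 : (ℓ : ℝ) / H ≤ ℓ := by
      rw [div_le_iff₀ hHpos]
      have : (1 : ℝ) ≤ H := by exact_mod_cast hH
      nlinarith [(Nat.cast_nonneg ℓ : (0 : ℝ) ≤ ℓ)]
    calc Real.exp ((ℓ : ℝ) / H) ≤ Real.exp (ℓ : ℝ) := Real.exp_le_exp.2 h2
      _ = Real.exp 1 ^ ℓ := by rw [← Real.exp_nat_mul, mul_one]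
      _ ≤ 3 ^ ℓ := by
          have := Real.exp_one_lt_three
          gcongr
  have hfac : (1 : ℝ) ≤ ℓ.factorial := by exact_mod_cast Nat.succ_le_of_lt ℓ.factorial_pos
  calc ∑ k ∈ FK K, ‖PF F M ϖ H r k‖ ^ (2 * ℓ)
      ≤ ∑ k ∈ FK K, ‖DPG (SZ M ϖ H r ℓ) (fun z => (-1) ^ ℓ * FG (fun m => F (ϖ m)) M ϖ H r ℓ z) k‖ ^ 2 := by
        apply Finset.sum_le_sum
        intro k _
        rw [← PE_pow hD, norm_pow, ← pow_mul, mul_comm ℓ 2]
        exact le_rfl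
    _ ≤ _ := hm
    _ ≤ C * (B + B) * ((ℓ.factorial : ℝ) ^ 2 * (1 / A) * 4 ^ ℓ) := by
        have hKB : (K : ℝ) ≤ B := hKe.trans hAB
        gcongr
    _ = 2 * C * (B / A) * 4 ^ ℓ * (ℓ.factorial : ℝ) ^ 2 := by
        field_simp
        ring
    _ ≤ 2 * C * 3 ^ ℓ * 4 ^ ℓ * (ℓ.factorial : ℝ) ^ 2 := by gcongr
    _ = 2 * C * 12 ^ ℓ * (ℓ.factorial : ℝ) ^ 2 := by
        rw [mul_assoc (2 * C), ← mul_pow]
        norm_num
    _ ≤ (2 * C + 12) * (2 * C + 12) ^ ℓ * (ℓ.factorial : ℝ) ^ 8 := by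
        have h8 : (ℓ.factorial : ℝ) ^ 2 ≤ (ℓ.factorial : ℝ) ^ 8 :=
          pow_le_pow_right₀ hfac (by norm_num)
        gcongr <;> linarith
    _ = (2 * C + 12) ^ (ℓ + 1) * (ℓ.factorial : ℝ) ^ 8 := by
        rw [pow_succ]
        ring


/-! ### the mean value of `GF` -/

lemma coef_norm (F : Qd t c → ℂ) (hF : ∀ z, ‖F z‖ ≤ 1) (Z : ℝ) (z : Qd t c) :
    ‖F z * (bg Z z : ℂ)‖ ≤ 1 / nm z := by
  rw [norm_mul, Complex.norm_real, Real.norm_of_nonneg (bg_nonneg Z z)]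
  calc ‖F z‖ * bg Z z ≤ 1 * bg Z z := mul_le_mul_of_nonneg_right (hF z) (bg_nonneg Z z)
    _ = bg Z z := one_mul _
    _ ≤ 1 / nm z := bg_le Z z

open scoped Classical in
lemma GF_filter (F : Qd t c → ℂ) (Z : ℝ) (k : ℤ) :
    GF F Z k =
      DPG ((pball t c (Real.exp 1 * Z)).filter (fun z => bg Z z ≠ 0))
      (fun z => F z * (bg Z z : ℂ)) k := by
  unfold GF DPG
  rw [Finset.sum_filter_of_ne]
  intro n _ hn h0
  apply hn
  simp only [h0]
  simp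

theorem mom0 {t c : ℤ} (hD : t ^ 2 < 4 * c) (hLS : S_LS t c) (hLAT : S_LAT t c) :
    S_MOM0 t c := by
  classical
  obtain ⟨C, hC, hls⟩ := hLS
  obtain ⟨C', hC', hcard⟩ := card_ball_le hLAT
  set e := Real.exp 1 with he
  have he0 : 0 < e := Real.exp_pos 1
  have he1 : 1 ≤ e := Real.one_le_exp zero_le_one
  refine ⟨C * C' * e ^ 4, by positivity, ?_⟩
  intro F hF K Z hZ hK
  have hZ0 : 0 < Z := by linarith
  have heZ : 1 ≤ e * Z := by nlinarith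
  set s := (pball t c (e * Z)).filter (fun z => bg Z z ≠ 0) with hs
  have hmem : ∀ z ∈ s, prim z ∧ Z / e ≤ (nm z : ℝ) ∧ (nm z : ℝ) ≤ e * Z := by
    intro z hz
    rw [hs, Finset.mem_filter, mem_pball hD] at hz
    obtain ⟨h0, h1, h2⟩ := bg_ne hz.2
    have hpos : (0 : ℝ) < nm z := by exact_mod_cast h0
    refine ⟨hz.1.1, ?_, hz.1.2⟩
    rw [← Real.log_le_log_iff (by positivity) hpos, Real.log_div hZ0.ne' he0.ne', he,
      Real.log_exp]
    exact h1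
  have hm := hls (e * Z) K s (fun z => F z * (bg Z z : ℂ)) heZ hK
    fun z hz => ⟨(hmem z hz).1, (hmem z hz).2.2⟩
  have htcard : (s.card : ℝ) ≤ C' * (e * Z) := by
    refine le_trans ?_ (hcard (e * Z) heZ)
    have : s.card ≤ (ball t c (e * Z)).card := by
      calc s.card ≤ (pball t c (e * Z)).card := Finset.card_filter_le _ _
        _ ≤ (ball t c (e * Z)).card := by
          unfold pball
          exact Finset.card_filter_le _ _
    exact_mod_cast this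
  have hsum : ∑ z ∈ s, ‖F z * (bg Z z : ℂ)‖ ^ 2 ≤ C' * (e * Z) * (e / Z) ^ 2 := by
    calc ∑ z ∈ s, ‖F z * (bg Z z : ℂ)‖ ^ 2 ≤ ∑ _z ∈ s, (e / Z) ^ 2 := by
          apply Finset.sum_le_sum
          intro z hz
          have hn1 := (hmem z hz).2.1
          have hze : 0 < Z / e := by positivity
          have hnpos : (0 : ℝ) < nm z := by linarith
          have hinv : 1 / (nm z : ℝ) ≤ e / Z := by
            rw [div_le_div_iff₀ hnpos hZ0, one_mul]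
            rw [div_le_iff₀ he0] at hn1
            linarith
          calc ‖F z * (bg Z z : ℂ)‖ ^ 2 ≤ (1 / (nm z : ℝ)) ^ 2 := by
                gcongr
                exact coef_norm F hF Z z
            _ ≤ (e / Z) ^ 2 := by gcongr
      _ = s.card * (e / Z) ^ 2 := by rw [Finset.sum_const, nsmul_eq_mul]
      _ ≤ C' * (e * Z) * (e / Z) ^ 2 := by gcongr
  calc ∑ k ∈ FK K, ‖GF F Z k‖ ^ 2
      = ∑ k ∈ FK K, ‖DPG s (fun z => F z * (bg Z z : ℂ)) k‖ ^ 2 := by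
        apply Finset.sum_congr rfl
        intro k _
        rw [GF_filter, hs]
    _ ≤ _ := hm
    _ ≤ C * (K + e * Z) * (C' * (e * Z) * (e / Z) ^ 2) := by gcongr
    _ = C * C' * e ^ 3 * (e + K / Z) := by
        field_simp
        ring
    _ ≤ C * C' * e ^ 3 * (e + e * (K / Z)) := by
        gcongr
        have : (0 : ℝ) ≤ K / Z := by positivity
        nlinarith
    _ = C * C' * e ^ 4 * (1 + K / Z) := by ring

end Pool.Agent.W565.GX
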